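import Pool.Agent.Y812.MB.Deg

/-!
# The numerical inequality
-/

set_option autoImplicit false

namespace Pool.Agent.Y812.MB

open Finset Pool.Agent.TH451.MB

lemma log_le_sixteenth {n : ℕ} (hn : 1024 ≤ n) : Real.log n ≤ n / 16 := by
  have hn0 : (1024 : ℝ) ≤ n := by exact_mod_cast hn
  have hnpos : (0 : ℝ) < n := by linarith
  have hs : 32 ≤ Real.sqrt n := by
    rw [show (32 : ℝ) = Real.sqrt 1024 by
      rw [show (1024 : ℝ) = 32 ^ 2 by norm_num, Real.sqrt_sq (by norm_num)]]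
    exact Real.sqrt_le_sqrt hn0
  have h1 : Real.log n = 2 * Real.log (Real.sqrt n) := by
    rw [Real.log_sqrt hnpos.le]
    ring
  have h2 : Real.log (Real.sqrt n) ≤ Real.sqrt n - 1 :=
    Real.log_le_sub_one_of_pos (by positivity)
  have h3 : Real.sqrt n * Real.sqrt n = n := Real.mul_self_sqrt hnpos.le
  rw [h1]
  nlinarith

/-- the numerical inequality -/
theorem numeric {n k : ℕ} (hn : 1024 ≤ n) (hkn : k + 1 ≤ n)
    (hk : (n : ℝ) / 2 + Real.sqrt (n * Real.log n) ≤ k + 1) :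
    (n : ℝ) < (1 + Real.sqrt (Real.log n / n)) ^ k *
      (1 - Real.sqrt (Real.log n / n)) ^ (n - 1 - k) := by
  have hn0 : (1024 : ℝ) ≤ n := by exact_mod_cast hn
  have hnpos : (0 : ℝ) < n := by linarith
  set L := Real.log n with hL
  have hL1 : 3 ≤ L := by
    have h1 : Real.log 1024 ≤ L := Real.log_le_log (by norm_num) hn0
    have h2 : Real.log 1024 = 10 * Real.log 2 := by
      rw [show (1024 : ℝ) = 2 ^ (10 : ℕ) by norm_num, Real.log_pow]
      norm_num
    have h3 := Real.log_two_gt_d9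
    linarith
  have hLn : L ≤ n / 16 := log_le_sixteenth hn
  set δ := Real.sqrt (L / n) with hδ
  have hδ0 : 0 < δ := Real.sqrt_pos.2 (by positivity)
  have hδ2 : δ ^ 2 = L / n := Real.sq_sqrt (by positivity)
  have hδ16 : δ ^ 2 ≤ 1 / 16 := by
    rw [hδ2, div_le_iff₀ hnpos]
    linarith
  have hδ4 : δ ≤ 1 / 4 := by nlinarith
  have hnδ : n * δ = Real.sqrt (n * L) := by
    rw [show (n : ℝ) * L = (n * δ) ^ 2 by rw [mul_pow, hδ2]; field_simp]
    rw [Real.sqrt_sq (by positivity)]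
  have hLδ : n * δ ^ 2 = L := by rw [hδ2]; field_simp
  set s : ℝ := k - n / 2 with hs
  have hs1 : n * δ - 1 ≤ s := by rw [hnδ, hs]; linarith
  -- logarithms
  set a := Real.log (1 + δ) with ha
  set b := Real.log (1 - δ) with hb
  have h1δ : 0 < 1 - δ := by linarith
  have ha1 : δ - δ ^ 2 / 2 ≤ a := by
    have h := Real.le_log_one_add_of_nonneg hδ0.le
    refine le_trans ?_ h
    rw [le_div_iff₀ (by linarith)]
    nlinarith [pow_pos hδ0 3]
  have hb1 : b ≤ -δ := by
    have h := Real.log_le_sub_one_of_pos h1δ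
    linarith
  have hab : -(16 / 15) * δ ^ 2 ≤ a + b := by
    rw [ha, hb, ← Real.log_mul (by linarith) h1δ.ne']
    have h1 : (1 + δ) * (1 - δ) = 1 - δ ^ 2 := by ring
    rw [h1]
    have h2 : 0 < 1 - δ ^ 2 := by linarith
    have h3 := Real.one_sub_inv_le_log_of_pos h2
    refine le_trans ?_ h3
    rw [← sub_nonneg]
    have h4 : 1 - (1 - δ ^ 2)⁻¹ - -(16 / 15) * δ ^ 2 =
        δ ^ 2 * (1 / 15 - 16 / 15 * δ ^ 2) / (1 - δ ^ 2) := by
      field_simp
      ring
    rw [h4]
    apply div_nonneg _ h2.le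
    apply mul_nonneg (by positivity)
    linarith
  have hmain : L < k * a + ((n - 1 - k : ℕ) : ℝ) * b := by
    have h1 : ((n - 1 - k : ℕ) : ℝ) = n - 1 - k := by
      rw [Nat.cast_sub (by omega), Nat.cast_sub (by omega)]
      push_cast
      ring
    rw [h1]
    have h2 : (k : ℝ) = n / 2 + s := by rw [hs]; ring
    have h3 : (k : ℝ) * a + ((n : ℝ) - 1 - k) * b = n / 2 * (a + b) + s * (a - b) - b := by
      rw [h2]; ring
    rw [h3]
    have h4 : n / 2 * (-(16 / 15) * δ ^ 2) ≤ n / 2 * (a + b) :=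
      mul_le_mul_of_nonneg_left hab (by positivity)
    have h5 : n / 2 * (-(16 / 15) * δ ^ 2) = -(8 / 15) * L := by rw [← hLδ]; ring
    have h6 : 2 * δ - δ ^ 2 / 2 ≤ a - b := by linarith
    have hnδ1 : 1 ≤ n * δ := by
      have : 1 ≤ (n * δ) ^ 2 := by
        have : (n * δ) ^ 2 = n * L := by rw [mul_pow, hδ2]; field_simp
        rw [this]
        nlinarith
      nlinarith [mul_pos hnpos hδ0]
    have h7 : (n * δ - 1) * (2 * δ - δ ^ 2 / 2) ≤ s * (a - b) := by
      have h8 : 0 ≤ 2 * δ - δ ^ 2 / 2 := by nlinarith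
      exact mul_le_mul hs1 h6 h8 (by linarith)
    have h8 : (n * δ - 1) * (2 * δ - δ ^ 2 / 2) = 2 * L - L * δ / 2 - 2 * δ + δ ^ 2 / 2 := by
      rw [← hLδ]; ring
    have h9 : L * δ ≤ L * (1 / 4) := mul_le_mul_of_nonneg_left hδ4 (by linarith)
    nlinarith [sq_nonneg δ]
  have hpos : 0 < (1 + δ) ^ k * (1 - δ) ^ (n - 1 - k) := by positivity
  rw [← Real.log_lt_log_iff hnpos hpos, Real.log_mul (by positivity) (by positivity),
    Real.log_pow, Real.log_pow]
  exact hmain

/-- Breaker prevents every graph with a vertex of degree at least `n / 2 + √(n log n)` -/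
theorem not_wins_of_degree {n : ℕ} (hn : 1024 ≤ n) (T : SimpleGraph (Fin n)) [DecidableRel T.Adj]
    (v : Fin n) (hv : (n : ℝ) / 2 + Real.sqrt (n * Real.log n) ≤ T.degree v + 1) :
    ¬ MakerWins T := by
  have hn0 : (1024 : ℝ) ≤ n := by exact_mod_cast hn
  have hnpos : (0 : ℝ) < n := by linarith
  have hdeg : T.degree v + 1 ≤ n := by
    have := T.degree_lt_card_verts v
    rw [Fintype.card_fin] at this
    omega
  have hL0 : 0 ≤ Real.log n := Real.log_nonneg (by linarith)
  have hlt : Real.sqrt (Real.log n / n) < 1 := by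
    rw [Real.sqrt_lt' one_pos, one_pow, div_lt_one hnpos]
    have := log_le_sixteenth hn
    linarith
  exact not_wins (k := T.degree v) le_rfl (Real.sqrt_nonneg _) hlt (numeric hn hdeg hv)

end Pool.Agent.Y812.MB
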