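import Pool.Agent.TH451.MB.Defs

/-!
# Breaker keeps the degrees of Maker's graph below `n / 2 + √(n log n)`
-/

set_option autoImplicit false

namespace Pool.Agent.Y812.MB

open Finset Pool.Agent.TH451.MB

section game

variable {n : ℕ}

/-- the number of elements of `M` at the vertex `v` -/
def dg (M : Finset (Sym2 (Fin n))) (v : Fin n) : ℕ := (M.filter (fun e => v ∈ e)).card

/-- the potential of a vertex -/
noncomputable def ph (δ : ℝ) (M B : Finset (Sym2 (Fin n))) (v : Fin n) : ℝ :=
  (1 + δ) ^ dg M v * (1 - δ) ^ dg B v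

/-- the indicator of a vertex of an edge -/
def ind (e : Sym2 (Fin n)) (v : Fin n) : ℝ := if v ∈ e then 1 else 0

lemma dg_insert {M : Finset (Sym2 (Fin n))} {e : Sym2 (Fin n)} (he : e ∉ M) (v : Fin n) :
    dg (insert e M) v = dg M v + if v ∈ e then 1 else 0 := by
  unfold dg
  rw [filter_insert]
  split_ifs with h
  · rw [card_insert_of_notMem]
    intro h1
    exact he (mem_filter.1 h1).1
  · rfl

lemma pow_ind (x : ℝ) (e : Sym2 (Fin n)) (v : Fin n) :
    (1 + x) ^ (if v ∈ e then 1 else 0 : ℕ) = 1 + x * ind e v := by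
  unfold ind
  split_ifs <;> simp

lemma ph_maker {δ : ℝ} {M B : Finset (Sym2 (Fin n))} {m : Sym2 (Fin n)} (hm : m ∉ M)
    (v : Fin n) : ph δ (insert m M) B v = ph δ M B v * (1 + δ * ind m v) := by
  unfold ph
  rw [dg_insert hm, pow_add, pow_ind]
  ring

lemma ph_breaker {δ : ℝ} {M B : Finset (Sym2 (Fin n))} {b : Sym2 (Fin n)} (hb : b ∉ B)
    (v : Fin n) : ph δ M (insert b B) v = ph δ M B v * (1 + (-δ) * ind b v) := by
  unfold ph
  rw [dg_insert hb, pow_add, sub_eq_add_neg, pow_ind]
  ring

lemma ph_nonneg {δ : ℝ} (h0 : 0 ≤ δ) (h1 : δ ≤ 1) (M B : Finset (Sym2 (Fin n))) (v : Fin n) :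
    0 ≤ ph δ M B v := by
  unfold ph
  have : 0 ≤ 1 - δ := by linarith
  positivity

/-- the weight of an edge -/
noncomputable def wt (δ : ℝ) (M B : Finset (Sym2 (Fin n))) (e : Sym2 (Fin n)) : ℝ :=
  ∑ v, ph δ M B v * ind e v

lemma ind_nonneg (e : Sym2 (Fin n)) (v : Fin n) : 0 ≤ ind e v := by
  unfold ind
  split_ifs <;> norm_num

lemma wt_nonneg {δ : ℝ} (h0 : 0 ≤ δ) (h1 : δ ≤ 1) (M B : Finset (Sym2 (Fin n)))
    (e : Sym2 (Fin n)) : 0 ≤ wt δ M B e :=
  sum_nonneg fun v _ => mul_nonneg (ph_nonneg h0 h1 M B v) (ind_nonneg e v)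

lemma sum_breaker {δ : ℝ} {M B : Finset (Sym2 (Fin n))} {b : Sym2 (Fin n)} (hb : b ∉ B) :
    ∑ v, ph δ M (insert b B) v = ∑ v, ph δ M B v - δ * wt δ M B b := by
  unfold wt
  rw [mul_sum, ← sum_sub_distrib]
  refine sum_congr rfl fun v _ => ?_
  rw [ph_breaker hb]
  ring

lemma sum_both {δ : ℝ} (h0 : 0 ≤ δ) (h1 : δ ≤ 1) {M B : Finset (Sym2 (Fin n))}
    {m b : Sym2 (Fin n)} (hb : b ∉ B) (hm : m ∉ M) :
    ∑ v, ph δ (insert m M) (insert b B) v ≤
      ∑ v, ph δ M B v - δ * wt δ M B b + δ * wt δ M B m := by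
  unfold wt
  rw [mul_sum, mul_sum, ← sum_sub_distrib, ← sum_add_distrib]
  refine sum_le_sum fun v _ => ?_
  rw [ph_maker hm, ph_breaker hb]
  have h2 := ph_nonneg h0 h1 M B v
  have h3 := ind_nonneg b v
  have h4 := ind_nonneg m v
  have h5 : 0 ≤ ph δ M B v * (δ * δ * (ind b v * ind m v)) := by positivity
  nlinarith

/-- the potential argument -/
theorem no_win {δ : ℝ} (h0 : 0 ≤ δ) (h1 : δ ≤ 1) {F : Set (Finset (Sym2 (Fin n)))} {c : ℝ}
    (hF : ∀ W ∈ F, ∀ M B : Finset (Sym2 (Fin n)), W ⊆ M → Disjoint M B → M ⊆ board n →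
      B ⊆ board n → ¬ (∑ v, ph δ M B v ≤ c)) (t : Turn) (M B : Finset (Sym2 (Fin n)))
    (hwin : MakerWinsFrom (board n) F t M B) :
    Disjoint M B → M ⊆ board n → B ⊆ board n → ∑ v, ph δ M B v ≤ c →
    (t = Turn.maker → ∀ m ∈ board n \ (M ∪ B), ∑ v, ph δ (insert m M) B v ≤ c) → False := by
  induction hwin with
  | won W hW h =>
    intro hd hM hB hc _
    exact hF W hW _ _ h hd hM hB hc
  | @breaker M B hfree h ih =>
    intro hd hM hB hc _
    obtain ⟨b, hb, hmax⟩ := exists_max_image (board n \ (M ∪ B)) (fun e => wt δ M B e) hfree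
    rw [mem_sdiff, mem_union, not_or] at hb
    refine ih b (by rw [mem_sdiff, mem_union, not_or]; exact hb) ?_ hM ?_ ?_ ?_
    · rw [disjoint_insert_right]
      exact ⟨hb.2.1, hd⟩
    · exact insert_subset hb.1 hB
    · rw [sum_breaker hb.2.2]
      have := wt_nonneg h0 h1 M B b
      have : 0 ≤ δ * wt δ M B b := by positivity
      linarith
    · intro _ m hm
      rw [mem_sdiff, mem_union, not_or, mem_insert, not_or] at hm
      refine (sum_both h0 h1 hb.2.2 hm.2.1).trans ?_
      have h2 := hmax m (by rw [mem_sdiff, mem_union, not_or]; exact ⟨hm.1, hm.2.1, hm.2.2.2⟩)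
      have h3 : δ * wt δ M B m ≤ δ * wt δ M B b := mul_le_mul_of_nonneg_left h2 h0
      linarith
  | @maker M B m hm h ih =>
    intro hd hM hB hc hall
    have hm' := hm
    rw [mem_sdiff, mem_union, not_or] at hm'
    refine ih ?_ ?_ hB (hall rfl m hm) ?_
    · rw [disjoint_insert_left]
      exact ⟨hm'.2.2, hd⟩
    · exact insert_subset hm'.1 hM
    · intro h
      cases h

/-- the number of edges of the board at a vertex -/
lemma dg_board (v : Fin n) : dg (board n) v ≤ n - 1 := by
  classical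
  unfold dg
  have h : (board n).filter (fun e => v ∈ e) ⊆ (univ.erase v).image (fun w => s(v, w)) := by
    intro e he
    rw [mem_filter] at he
    obtain ⟨w, hw⟩ := he.2
    have h1 := he.1
    rw [board, mem_filter] at h1
    rw [mem_image]
    refine ⟨w, ?_, hw.symm⟩
    rw [mem_erase]
    refine ⟨?_, mem_univ _⟩
    rintro rfl
    exact h1.2 (by rw [hw]; exact Sym2.mk_isDiag_iff.2 rfl)
  refine (card_le_card h).trans (card_image_le.trans ?_)
  rw [card_erase_of_mem (mem_univ _), card_univ, Fintype.card_fin]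

lemma dg_add {M B : Finset (Sym2 (Fin n))} (hd : Disjoint M B) (hM : M ⊆ board n)
    (hB : B ⊆ board n) (v : Fin n) : dg M v + dg B v ≤ n - 1 := by
  classical
  refine le_trans ?_ (dg_board v)
  unfold dg
  rw [← card_union_of_disjoint (disjoint_filter_filter hd)]
  refine card_le_card ?_
  intro e he
  rw [mem_union, mem_filter, mem_filter] at he
  rw [mem_filter]
  rcases he with he | he
  · exact ⟨hM he.1, he.2⟩
  · exact ⟨hB he.1, he.2⟩

/-- Breaker prevents every tree with a vertex of large degree -/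
theorem not_wins {T : SimpleGraph (Fin n)} [DecidableRel T.Adj] {k : ℕ} {v₀ : Fin n}
    (hk : k ≤ T.degree v₀) {δ : ℝ} (h0 : 0 ≤ δ) (h1 : δ < 1)
    (hδ : (n : ℝ) < (1 + δ) ^ k * (1 - δ) ^ (n - 1 - k)) : ¬ MakerWins T := by
  classical
  intro hwin
  have h1' : 0 < 1 - δ := by linarith
  refine no_win h0 h1.le (c := n) ?_ _ _ _ hwin (by simp) (by simp) (by simp) ?_ ?_
  · rintro W ⟨ψ, hψ⟩ M B hWM hd hM hB hle
    have h2 : k ≤ dg M (ψ v₀) := by
      refine hk.trans ?_
      rw [← SimpleGraph.card_neighborFinset_eq_degree]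
      unfold dg
      refine card_le_card_of_injOn (fun w => s(ψ v₀, ψ w)) ?_ ?_
      · intro w hw
        rw [mem_coe, SimpleGraph.mem_neighborFinset] at hw
        rw [mem_coe, mem_filter]
        refine ⟨hWM ((hψ _).2 ⟨v₀, w, hw, rfl⟩), ?_⟩
        exact Sym2.mem_mk_left _ _
      · intro w _ w' _ h
        have h3 : s(ψ v₀, ψ w) = s(ψ v₀, ψ w') := h
        rw [Sym2.congr_right] at h3
        exact ψ.injective h3
    have h3 := dg_add hd hM hB (ψ v₀)
    have h4 : (1 + δ) ^ k * (1 - δ) ^ (n - 1 - k) ≤ ph δ M B (ψ v₀) := by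
      unfold ph
      refine mul_le_mul (pow_le_pow_right₀ (by linarith) h2) ?_ (by positivity) (by positivity)
      exact pow_le_pow_of_le_one h1'.le (by linarith) (by omega)
    have h5 : ph δ M B (ψ v₀) ≤ ∑ v, ph δ M B v :=
      single_le_sum (f := fun v => ph δ M B v) (fun v _ => ph_nonneg h0 h1.le M B v) (mem_univ _)
    linarith
  · have : ∀ v : Fin n, ph δ ∅ ∅ v = 1 := by
      intro v
      simp [ph, dg]
    simp [this]
  · intro h
    cases h

end game

section tree

variable {n : ℕ}

/-- a star with a tail -/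
def br (n D : ℕ) : SimpleGraph (Fin n) where
  Adj a b := a ≠ b ∧ ((a.1 = 0 ∧ b.1 ≤ D) ∨ (b.1 = 0 ∧ a.1 ≤ D) ∨ (D ≤ a.1 ∧ b.1 = a.1 + 1) ∨
    (D ≤ b.1 ∧ a.1 = b.1 + 1))
  symm := ⟨by
    intro a b h
    refine ⟨h.1.symm, ?_⟩
    tauto⟩
  loopless := ⟨fun a h => h.1 rfl⟩

lemma br_connected {D : ℕ} (hn : 0 < n) : (br n D).Connected := by
  have h0 : ∀ (k : ℕ) (hk : k < n), (br n D).Reachable ⟨0, hn⟩ ⟨k, hk⟩ := by
    intro k
    induction k with
    | zero => exact fun hk => SimpleGraph.Reachable.refl _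
    | succ k ih =>
      intro hk
      by_cases h : k + 1 ≤ D
      · refine SimpleGraph.Adj.reachable ⟨?_, Or.inl ⟨rfl, h⟩⟩
        intro h1
        have := congrArg Fin.val h1
        simp at this
      · refine (ih (by omega)).trans (SimpleGraph.Adj.reachable ⟨?_, ?_⟩)
        · intro h1
          have := congrArg Fin.val h1
          simp at this
        · exact Or.inr (Or.inr (Or.inl ⟨by simp; omega, rfl⟩))
  rw [SimpleGraph.connected_iff]
  refine ⟨fun a b => ?_, ⟨⟨0, hn⟩⟩⟩
  exact (h0 a.1 a.2).symm.trans (h0 b.1 b.2)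

/-- a tree of maximum degree at most `D` with a vertex of degree at least `D - 1` -/
theorem exists_tree {D : ℕ} (hn : 2 ≤ n) (hD : 2 ≤ D) (hDn : D < n) :
    ∃ T : SimpleGraph (Fin n), T.IsTree ∧ (∀ [DecidableRel T.Adj], ∀ v, T.degree v ≤ D) ∧
      ∃ v, ∀ [DecidableRel T.Adj], D - 1 ≤ T.degree v := by
  classical
  obtain ⟨T, hTle, hT⟩ := (br_connected (n := n) (D := D) (by omega)).exists_isTree_le
  refine ⟨T, hT, ?_, ⟨0, by omega⟩, ?_⟩
  · intro _ v
    rw [← SimpleGraph.card_neighborFinset_eq_degree]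
    by_cases hv : v.1 = 0
    · have h : T.neighborFinset v ⊆ (Icc 1 D).attach.image
          (fun i => (⟨i.1, by have := (mem_Icc.1 i.2).2; omega⟩ : Fin n)) := by
        intro w hw
        rw [SimpleGraph.mem_neighborFinset] at hw
        have h1 := hTle hw
        have h2 : w.1 ≠ 0 := fun h => h1.1 (Fin.ext (by omega))
        have h3 : w.1 ≤ D := by
          rcases h1.2 with h | h | h | h
          · exact h.2
          · omega
          · omega
          · omega
        rw [mem_image]
        exact ⟨⟨w.1, mem_Icc.2 ⟨by omega, h3⟩⟩, mem_attach _ _, Fin.ext rfl⟩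
      refine (card_le_card h).trans (card_image_le.trans ?_)
      rw [card_attach, Nat.card_Icc]
      omega
    · have h : (T.neighborFinset v).image Fin.val ⊆
          {if v.1 ≤ D then 0 else v.1 - 1, v.1 + 1} := by
        intro x hx
        rw [mem_image] at hx
        obtain ⟨w, hw, rfl⟩ := hx
        rw [SimpleGraph.mem_neighborFinset] at hw
        have h1 := hTle hw
        rw [mem_insert, mem_singleton]
        rcases h1.2 with h | h | h | h
        · exact absurd h.1 hv
        · left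
          rw [if_pos h.2]
          exact h.1
        · right
          exact h.2
        · left
          rw [if_neg (by omega)]
          omega
      have h2 := (card_le_card h).trans card_le_two
      rw [card_image_of_injective _ Fin.val_injective] at h2
      omega
  · intro _
    rw [← SimpleGraph.card_neighborFinset_eq_degree]
    have h : (Icc 1 (D - 1)).attach.image
          (fun i => (⟨i.1, by have := (mem_Icc.1 i.2).2; omega⟩ : Fin n)) ⊆
        T.neighborFinset ⟨0, by omega⟩ := by
      intro w hw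
      rw [mem_image] at hw
      obtain ⟨i, _, rfl⟩ := hw
      have hi := mem_Icc.1 i.2
      rw [SimpleGraph.mem_neighborFinset]
      set w : Fin n := ⟨i.1, by omega⟩ with hwdef
      have : Nontrivial (Fin n) := Fin.nontrivial_iff_two_le.2 hn
      obtain ⟨u, hu⟩ := hT.connected.preconnected.exists_adj_of_nontrivial w
      have h1 := hTle hu
      have hw1 : w.1 = i.1 := rfl
      have h2 : u = ⟨0, by omega⟩ := by
        rcases h1.2 with h | h | h | h
        · omega
        · exact Fin.ext h.1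
        · omega
        · omega
      rw [h2] at hu
      exact hu.symm
    have h2 := card_le_card h
    rw [card_image_of_injective, card_attach, Nat.card_Icc] at h2
    · omega
    · intro i j hij
      have : i.1 = j.1 := by
        have := congrArg Fin.val hij
        exact this
      exact Subtype.ext this

end tree

end Pool.Agent.Y812.MB
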